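import Mathlib

/-!
Uniformly complemented copies of `ℓ_p^n`.
-/

set_option autoImplicit false

namespace Pool.Agent.Lib.MP_5ea425_an

/-- `X` contains uniformly complemented copies of `ℓ_p^n`: the identity operators of the spaces
`ℓ_p^n` factor through `X` with uniformly bounded norms. -/
def UnifCompl (p : ENNReal) [Fact (1 ≤ p)] (X : Type*) [NormedAddCommGroup X] [NormedSpace ℝ X] :
    Prop :=
  ∃ C : ℝ, ∀ n : ℕ, ∃ (i : PiLp p (fun _ : Fin n => ℝ) →L[ℝ] X)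
    (q : X →L[ℝ] PiLp p (fun _ : Fin n => ℝ)), ‖i‖ ≤ C ∧ ‖q‖ ≤ C ∧ ∀ z, q (i z) = z

end Pool.Agent.Lib.MP_5ea425_an
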