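import Pool.Agent.Lib.MP_5ea425_an.Core
import Pool.Agent.Lib.MP_5ea425_an.Defs

/-!
Spaces with uniformly complemented copies of `ℓ_p^n` have the blocks needed in the construction.
-/

set_option autoImplicit false

open MeasureTheory Filter Topology

namespace Pool.Agent.Lib.MP_5ea425_an

theorem piLp_mono {p : ENNReal} [Fact (1 ≤ p)] {ι E : Type*} [Fintype ι] [NormedAddCommGroup E]
    (x y : PiLp p fun _ : ι => E) (h : ∀ a, ‖x a‖ ≤ ‖y a‖) : ‖x‖ ≤ ‖y‖ := by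
  rcases p.dichotomy with rfl | hp
  · rw [PiLp.norm_eq_ciSup, PiLp.norm_eq_ciSup]
    exact ciSup_mono (Set.finite_range _).bddAbove h
  · have hp' : 0 < p.toReal := by linarith
    rw [PiLp.norm_eq_sum hp', PiLp.norm_eq_sum hp']
    exact Real.rpow_le_rpow (by positivity) (Finset.sum_le_sum fun a _ =>
      Real.rpow_le_rpow (norm_nonneg _) (h a) hp'.le) (by positivity)

variable {p : ENNReal} [Fact (1 ≤ p)] {X : Type*} [NormedAddCommGroup X] [NormedSpace ℝ X]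

theorem UnifCompl.nested (h : UnifCompl p X) : ∃ C : ℝ, 0 ≤ C ∧ ∀ n L : ℕ,
    ∃ (i : PiLp p (fun _ : Fin n => PiLp p fun _ : Fin L => ℝ) →L[ℝ] X)
      (q : X →L[ℝ] PiLp p (fun _ : Fin n => PiLp p fun _ : Fin L => ℝ)),
      (∀ z, ‖i z‖ ≤ C * ‖z‖) ∧ (∀ x, ‖q x‖ ≤ C * ‖x‖) ∧ ∀ z, q (i z) = z := by
  obtain ⟨C, hC⟩ := h
  obtain ⟨i₀, -, h₀, -⟩ := hC 0
  refine ⟨C, (norm_nonneg _).trans h₀, fun n L => ?_⟩
  obtain ⟨i, q, h1, h2, h3⟩ := hC (n * L)
  let E := (LinearIsometryEquiv.piLpCongrLeft p ℝ ℝ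
    (finProdFinEquiv.symm.trans (Equiv.sigmaEquivProd (Fin n) (Fin L)).symm)).trans
    (LinearIsometryEquiv.piLpCurry ℝ p fun (_ : Fin n) (_ : Fin L) => ℝ)
  refine ⟨i.comp E.symm.toContinuousLinearEquiv.toContinuousLinearMap,
    E.toContinuousLinearEquiv.toContinuousLinearMap.comp q, fun z => ?_, fun x => ?_, fun z => ?_⟩
  · exact (i.le_of_opNorm_le h1 (E.symm z)).trans_eq (by rw [E.symm.norm_map])
  · exact (E.norm_map (q x)).trans_le (q.le_of_opNorm_le h2 x)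
  · change E (q (i (E.symm z))) = z
    rw [h3, E.apply_symm_apply]

theorem UnifCompl.step (h : UnifCompl p X) (Z : Finset X) (Ψ : Finset (X →L[ℝ] ℝ)) :
    ∃ K : ℝ, ∀ n : ℕ, ∃ (e : ℕ → X) (φ : ℕ → X →L[ℝ] ℝ), (∀ j, ∀ ψ ∈ Ψ, ψ (e j) = 0) ∧
      (∀ j, ∀ z ∈ Z, φ j z = 0) ∧ (∀ j < n, ∀ l < n, φ j (e l) = if j = l then 1 else 0) ∧
      ∀ (s : ℕ → ℝ) (z : X), (∀ j, |s j| ≤ 1) →
        ‖∑ j ∈ Finset.range n, (s j * φ j z) • e j‖ ≤ K * ‖z‖ := by
  obtain ⟨C, hC0, hC⟩ := h.nested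
  set S := Submodule.span ℝ (Z : Set X)
  obtain ⟨f, hf⟩ := Submodule.ClosedComplemented.of_finiteDimensional S
  let Λ : X →ₗ[ℝ] S × (Ψ → ℝ) :=
    (f : X →ₗ[ℝ] S).prod (LinearMap.pi fun ψ => (ψ.1 : X →ₗ[ℝ] ℝ))
  let P : X →L[ℝ] X := ContinuousLinearMap.id ℝ X - S.subtypeL.comp f
  refine ⟨C * (C * ‖P‖), fun n => ?_⟩
  obtain ⟨L, hL⟩ : ∃ L, Module.finrank ℝ (S × (Ψ → ℝ)) < L := ⟨_, Nat.lt_succ_self _⟩
  obtain ⟨i, q, h1, h2, h3⟩ := hC n L
  have hu : ∀ a : Fin n, ∃ u : PiLp p fun _ : Fin L => ℝ, ‖u‖ = 1 ∧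
      Λ (i (PiLp.single p a u)) = 0 := fun a => by
    let F : (PiLp p fun _ : Fin L => ℝ) →ₗ[ℝ] S × (Ψ → ℝ) := Λ ∘ₗ i.toLinearMap ∘ₗ
      (WithLp.linearEquiv p ℝ _).symm.toLinearMap ∘ₗ
        LinearMap.single ℝ (fun _ : Fin n => PiLp p fun _ : Fin L => ℝ) a
    have hF := F.ker_ne_bot_of_finrank_lt (by
      rwa [show Module.finrank ℝ (PiLp p fun _ : Fin L => ℝ) = L from
        (WithLp.linearEquiv p ℝ (Fin L → ℝ)).finrank_eq.trans (Module.finrank_fin_fun ℝ)])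
    obtain ⟨u, hu1, hu2⟩ := (Submodule.ne_bot_iff _).1 hF
    exact ⟨‖u‖⁻¹ • u, norm_smul_inv_norm hu2, (LinearMap.ker F).smul_mem _ hu1⟩
  choose u hu1 hu2 using hu
  choose g hg1 hg2 using fun a => exists_dual_vector'' ℝ (u a)
  have hf0 : ∀ a, f (i (PiLp.single p a (u a))) = 0 := fun a => congrArg Prod.fst (hu2 a)
  refine ⟨fun j => if h : j < n then i (PiLp.single p ⟨j, h⟩ (u ⟨j, h⟩)) else 0,
    fun j => if h : j < n then (g ⟨j, h⟩).comp (((PiLp.proj p _ ⟨j, h⟩).comp q).comp P) else 0,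
    fun j ψ hψ => ?_, fun j z hz => ?_, fun j hj l hl => ?_, fun s z hs => ?_⟩
  · dsimp only
    split_ifs with h
    · exact congrFun (congrArg Prod.snd (hu2 ⟨j, h⟩)) ⟨ψ, hψ⟩
    · exact map_zero _
  · dsimp only
    split_ifs with h
    · have : P z = 0 :=
        sub_eq_zero.2 (congrArg Subtype.val (hf ⟨z, Submodule.subset_span hz⟩)).symm
      simp only [ContinuousLinearMap.comp_apply, this, map_zero]
    · rfl
  · have : P (i (PiLp.single p ⟨l, hl⟩ (u ⟨l, hl⟩))) = i (PiLp.single p ⟨l, hl⟩ (u ⟨l, hl⟩)) := by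
      simp [P, hf0]
    simp only [dif_pos hj, dif_pos hl, ContinuousLinearMap.comp_apply, this, h3, PiLp.proj_apply]
    split_ifs with hjl
    · subst hjl
      rw [PiLp.single_eq_same, hg2, hu1]
      rfl
    · rw [PiLp.single_eq_of_ne _ (fun h => hjl (congrArg Fin.val h)), map_zero]
  · have e : ∑ j ∈ Finset.range n, (s j * (if h : j < n then (g ⟨j, h⟩).comp
          (((PiLp.proj p _ ⟨j, h⟩).comp q).comp P) else 0 : X →L[ℝ] ℝ) z) •
          (if h : j < n then i (PiLp.single p ⟨j, h⟩ (u ⟨j, h⟩)) else 0) =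
        i (WithLp.toLp p fun a : Fin n => (s a * g a (q (P z) a)) • u a) := by
      rw [Finset.sum_range]
      simp only [Fin.is_lt, dif_pos, Fin.eta, ContinuousLinearMap.comp_apply, PiLp.proj_apply,
        ← map_smul, ← map_sum]
      refine congrArg i (PiLp.ext fun a => ?_)
      rw [WithLp.ofLp_sum, Finset.sum_apply, Finset.sum_eq_single a]
      · simp
      · intro b _ hb
        simp [hb.symm]
      · simp
    rw [e]
    refine (h1 _).trans ?_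
    rw [mul_assoc C]
    refine mul_le_mul_of_nonneg_left ((piLp_mono _ (q (P z)) fun a => ?_).trans
      ((h2 _).trans ?_)) hC0
    · rw [norm_smul, hu1, mul_one, norm_mul]
      refine (mul_le_of_le_one_left (norm_nonneg _) (hs a)).trans ?_
      exact ((g a).le_of_opNorm_le (hg1 a) _).trans_eq (one_mul _)
    · rw [mul_assoc]
      exact mul_le_mul_of_nonneg_left (P.le_opNorm z) hC0

theorem UnifCompl.not_finite (h : UnifCompl p X) : ¬ FiniteDimensional ℝ X := by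
  intro hX
  obtain ⟨C, hC⟩ := h
  obtain ⟨i, q, -, -, h3⟩ := hC (Module.finrank ℝ X + 1)
  have := LinearMap.finrank_le_finrank_of_injective (f := i.toLinearMap)
    (Function.LeftInverse.injective (g := q) h3)
  exact Nat.not_succ_le_self _ (((WithLp.linearEquiv p ℝ (Fin _ → ℝ)).finrank_eq.trans
    (Module.finrank_fin_fun ℝ)).symm.trans_le this)

theorem UnifCompl.main [CompleteSpace X] [MeasurableSpace X] [BorelSpace X] (h : UnifCompl p X)
    (k : ℕ) :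
    ∃ (A : Set X) (T : X ≃ X) (K L : NNReal), LipschitzWith K T ∧ LipschitzWith L T.symm ∧
      (∀ x y, ‖T x - x - (T y - y)‖ ≤ 1 / ((k : ℝ) + 1) / 2 * ‖x - y‖) ∧
      AronszajnNull A ∧ AronszajnNull (T '' A)ᶜ := by
  classical
  obtain ⟨x₀, π, h₀⟩ : ∃ (x₀ : X) (π : X →L[ℝ] ℝ), π x₀ ≠ 0 := by
    obtain ⟨K, hK⟩ := h.step ∅ ∅
    obtain ⟨e, φ, -, -, h1, -⟩ := hK 1
    exact ⟨e 0, φ 0, by simp [h1 0 one_pos 0 one_pos]⟩
  obtain ⟨y, hy1, hy2⟩ := exists_seq_of_forall_finset_exists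
    (fun y : ℕ × (ℕ → X) × (ℕ → X →L[ℝ] ℝ) => k + 1 ≤ y.1 ∧ (∀ j, π (y.2.1 j) = 0) ∧
      (∀ j < 64 * y.1 ^ 5, ∀ l < 64 * y.1 ^ 5, y.2.2 j (y.2.1 l) = if j = l then 1 else 0) ∧
      ∀ (s : ℕ → ℝ) (z : X), (∀ j, |s j| ≤ 1) →
        ‖∑ j ∈ Finset.range (64 * y.1 ^ 5), (s j * y.2.2 j z) • y.2.1 j‖ ≤ y.1 * ‖z‖)
    (fun x y => 2 * x.1 ≤ y.1 ∧ ∀ j < 64 * x.1 ^ 5, ∀ l, x.2.2 j (y.2.1 l) = 0 ∧
      y.2.2 l (x.2.1 j) = 0) (fun s _ => by
      obtain ⟨K, hK⟩ := h.step (s.biUnion fun x => (Finset.range (64 * x.1 ^ 5)).image x.2.1)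
        (insert π (s.biUnion fun x => (Finset.range (64 * x.1 ^ 5)).image x.2.2))
      obtain ⟨e, φ, h1, h2, h3, h4⟩ := hK (64 * (⌈K⌉₊ + 2 * ∑ x ∈ s, x.1 + (k + 1)) ^ 5)
      refine ⟨(⌈K⌉₊ + 2 * ∑ x ∈ s, x.1 + (k + 1), e, φ), ⟨Nat.le_add_left _ _,
        fun j => h1 j π (Finset.mem_insert_self _ _), h3, fun t z ht => (h4 t z ht).trans
          (mul_le_mul_of_nonneg_right ((Nat.le_ceil K).trans (Nat.cast_le.2 (by dsimp only; omega)))
            (norm_nonneg _))⟩, fun x hx => ⟨?_, fun j hj l => ⟨h1 l _ ?_, h2 l _ ?_⟩⟩⟩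
      · have := Finset.single_le_sum (f := fun x : ℕ × (ℕ → X) × (ℕ → X →L[ℝ] ℝ) => x.1)
          (fun _ _ => Nat.zero_le _) hx
        dsimp only at this ⊢
        omega
      · exact Finset.mem_insert_of_mem (Finset.mem_biUnion.2
          ⟨x, hx, Finset.mem_image_of_mem _ (Finset.mem_range.2 hj)⟩)
      · exact Finset.mem_biUnion.2 ⟨x, hx, Finset.mem_image_of_mem _ (Finset.mem_range.2 hj)⟩)
  have ha : ∀ m, (k + 1) * 2 ^ m ≤ (y m).1 := fun m => by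
    induction m with
    | zero => exact (mul_one _).trans_le (hy1 0).1
    | succ m ih =>
      have := (hy2 m (m + 1) m.lt_succ_self).1
      rw [pow_succ, ← mul_assoc]
      omega
  have hb : ∀ m, 1 ≤ (y m).1 := fun m => (Nat.le_add_left 1 k).trans (hy1 m).1
  have ha0 : ∀ m, (0 : ℝ) < (y m).1 := fun m => by exact_mod_cast hb m
  have ha1 : ∀ m, (1 : ℝ) ≤ (y m).1 := fun m => by exact_mod_cast hb m
  have ha3 : ∀ m, 1 / ((y m).1 : ℝ) ≤ 1 / ((k : ℝ) + 1) * (1 / 2) ^ m := fun m => by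
    rw [one_div_pow, one_div_mul_one_div]
    exact one_div_le_one_div_of_le (by positivity) (by exact_mod_cast ha m)
  have hk : 1 / ((k : ℝ) + 1) ≤ 1 := by
    rw [div_le_one (by positivity)]
    exact le_add_of_nonneg_left k.cast_nonneg
  have ha2 : ∀ m, 1 / ((y m).1 : ℝ) ≤ (1 / 2) ^ m := fun m =>
    (ha3 m).trans (mul_le_of_le_one_left (by positivity) hk)
  refine core π h₀ (by positivity) hk (fun m => 64 * (y m).1 ^ 5) (fun m => 1 / (8 * ((y m).1 : ℝ) ^ 2))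
    (fun m => (y m).2.1) (fun m => (y m).2.2) (fun m => ?_) (fun m => ?_) (fun m => ?_)
    (fun m => (le_of_eq ?_).trans (ha2 m)) (fun m j _ => (hy1 m).2.1 j) (fun m => (hy1 m).2.2.1)
    (fun m m' hm j hj l hl => ?_) fun m s z hs => ?_
  · have := hb m
    positivity
  · have := ha0 m
    positivity
  · refine (one_div_le_one_div_of_le (ha0 m) ?_).trans (ha2 m)
    nlinarith [ha1 m]
  · have := ha0 m
    push_cast
    field_simp
    norm_num
  · rcases hm.lt_or_gt with h | h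
    exacts [((hy2 m m' h).2 j hj l).1, ((hy2 m' m h).2 l hl j).2]
  · have := ha0 m
    refine (mul_le_mul_of_nonneg_left ((hy1 m).2.2.2 s z hs) (by positivity)).trans ?_
    rw [← mul_assoc]
    refine mul_le_mul_of_nonneg_right (le_trans (le_of_eq ?_)
      (div_le_div_of_nonneg_right (ha3 m) (by norm_num))) (norm_nonneg _)
    field_simp

end Pool.Agent.Lib.MP_5ea425_an
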