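import Mathlib

/-!
Sums of exponentials with well separated quadratic phases are small almost everywhere.
-/

set_option autoImplicit false

open MeasureTheory Filter Topology Complex

namespace Pool.Agent.Lib.MP_5ea425_an

theorem gauss_bound (A B μ r : ℝ) (hr : 0 < r) (h : r ^ 2 ≤ ‖(-1 + μ * I : ℂ)‖) :
    ‖∫ t : ℝ, cexp ((-1 + μ * I) * t ^ 2 + B * I * t + A * I)‖ ≤ 2 / r := by
  have hb : (-1 + μ * I : ℂ).re < 0 := by simp
  rw [integral_cexp_quadratic hb, norm_mul, norm_exp]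
  have h1 : (A * I - (B * I) ^ 2 / (4 * (-1 + μ * I)) : ℂ).re ≤ 0 := by
    have e : (A * I - (B * I) ^ 2 / (4 * (-1 + μ * I)) : ℂ) =
        A * I + ((B ^ 2 / 4 : ℝ) : ℂ) * (-1 + μ * I)⁻¹ := by
      rw [mul_pow, I_sq]
      push_cast
      rw [div_mul_eq_div_div, div_eq_mul_inv _ (-1 + μ * I)]
      ring
    rw [e, add_re, re_ofReal_mul, re_ofReal_mul, inv_re, I_re, mul_zero, zero_add]
    exact mul_nonpos_of_nonneg_of_nonpos (by positivity)
      (div_nonpos_of_nonpos_of_nonneg hb.le (normSq_nonneg _))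
  have h2 : ‖((Real.pi : ℂ) / -(-1 + μ * I)) ^ (1 / 2 : ℂ)‖ ≤ 2 / r := by
    rw [show (1 / 2 : ℂ) = ((1 / 2 : ℝ) : ℂ) by push_cast; rfl, norm_cpow_real, ← Real.sqrt_eq_rpow,
      norm_div, norm_neg, norm_real, Real.norm_of_nonneg Real.pi_pos.le]
    refine Real.sqrt_le_iff.2 ⟨by positivity, ?_⟩
    rw [div_pow]
    exact div_le_div₀ (by norm_num) (by linarith [Real.pi_le_four]) (by positivity) h
  calc _ ≤ 2 / r * 1 := mul_le_mul h2 (Real.exp_le_one_iff.2 h1) (Real.exp_pos _).le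
        (by positivity)
    _ = _ := mul_one _

theorem second_moment (N : ℕ) (A B μ : ℕ → ℝ)
    (h : ∀ j < N, ∀ l < N, j ≠ l → (N : ℝ) ^ 2 ≤ |μ j - μ l|) :
    Integrable (fun t : ℝ => Real.exp (-t ^ 2) *
      ‖∑ j ∈ Finset.range N, cexp ((A j + B j * t + μ j * t ^ 2 : ℝ) * I)‖ ^ 2) ∧
    ∫ t : ℝ, Real.exp (-t ^ 2) *
      ‖∑ j ∈ Finset.range N, cexp ((A j + B j * t + μ j * t ^ 2 : ℝ) * I)‖ ^ 2 ≤ 4 * N := by
  set g : ℕ → ℕ → ℝ → ℂ := fun j l t => cexp ((-1 + (μ j - μ l : ℝ) * I) * t ^ 2 +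
    (B j - B l : ℝ) * I * t + (A j - A l : ℝ) * I) with hg
  have hi : ∀ j l, Integrable (g j l) := fun j l => integrable_cexp_quadratic' (by simp) _ _
  have e : (fun t : ℝ => Real.exp (-t ^ 2) *
      ‖∑ j ∈ Finset.range N, cexp ((A j + B j * t + μ j * t ^ 2 : ℝ) * I)‖ ^ 2) =
      fun t => (∑ j ∈ Finset.range N, ∑ l ∈ Finset.range N, g j l t).re := by
    funext t
    rw [← ofReal_re (_ * _), ofReal_mul, ofReal_pow, ← mul_conj', map_sum, Finset.sum_mul_sum,
      Finset.mul_sum]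
    refine congrArg re (Finset.sum_congr rfl fun j _ => ?_)
    rw [Finset.mul_sum]
    refine Finset.sum_congr rfl fun l _ => ?_
    rw [← exp_conj, ofReal_exp, ← exp_add, ← exp_add, map_mul, conj_ofReal, conj_I]
    refine congrArg cexp ?_
    push_cast
    ring
  have hs : Integrable fun t => ∑ j ∈ Finset.range N, ∑ l ∈ Finset.range N, g j l t :=
    integrable_finsetSum _ fun j _ => integrable_finsetSum _ fun l _ => hi j l
  rw [e]
  refine ⟨hs.re, ?_⟩
  have e2 := integral_re hs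
  simp only [RCLike.re_to_complex] at e2
  rw [e2, integral_finsetSum _ fun j _ => integrable_finsetSum _ fun l _ => hi j l]
  refine (re_le_norm _).trans ((norm_sum_le_of_le _ (n := fun _ => (4 : ℝ)) fun j hj => ?_).trans
    (by simp [mul_comm]))
  rw [integral_finsetSum _ fun l _ => hi j l]
  have hj' := Finset.mem_range.1 hj
  have hN : (0 : ℝ) < N := by exact_mod_cast Nat.zero_lt_of_lt hj'
  refine (norm_sum_le_of_le _ (n := fun l => (if j = l then 2 else 0) + 2 / (N : ℝ))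
    fun l hl => ?_).trans ?_
  · split_ifs with hjl
    · have := gauss_bound (A j - A l) (B j - B l) (μ j - μ l) 1 one_pos (by simp [hjl])
      rw [div_one] at this
      exact this.trans (le_add_of_nonneg_right (by positivity))
    · rw [zero_add]
      refine gauss_bound _ _ _ _ hN ((h j hj' l (Finset.mem_range.1 hl) hjl).trans ?_)
      refine le_trans (le_of_eq ?_) (abs_im_le_norm _)
      simp
  · rw [Finset.sum_add_distrib, Finset.sum_ite_eq, if_pos hj, Finset.sum_const, Finset.card_range,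
      nsmul_eq_mul, mul_div_cancel₀ _ hN.ne']
    norm_num

theorem ae_tendsto_zero {F : ℕ → ℝ → ℝ} (hi : ∀ m, Integrable (F m)) (h0 : ∀ m t, 0 ≤ F m t)
    (hb : Summable fun m => ∫ t, F m t) : ∀ᵐ t, Tendsto (fun m => F m t) atTop (𝓝 0) := by
  have h1 : ∫⁻ t, ∑' m, ENNReal.ofReal (F m t) ≠ ⊤ := by
    rw [lintegral_tsum fun m => (hi m).aemeasurable.ennreal_ofReal]
    simp_rw [fun m => (ofReal_integral_eq_lintegral_ofReal (hi m)
      (Eventually.of_forall (h0 m))).symm]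
    rw [← ENNReal.ofReal_tsum_of_nonneg (fun m => integral_nonneg (h0 m)) hb]
    exact ENNReal.ofReal_ne_top
  filter_upwards [ae_lt_top' (AEMeasurable.tsum
    fun m => (hi m).aemeasurable.ennreal_ofReal) h1] with t ht
  have h2 := (ENNReal.tendsto_toReal ENNReal.zero_ne_top).comp
    (ENNReal.tendsto_atTop_zero_of_tsum_ne_top ht.ne)
  refine h2.congr fun m => ?_
  exact ENNReal.toReal_ofReal (h0 m t)

theorem ae_phase (N : ℕ → ℕ) (c : ℕ → ℝ) (hc : ∀ m, c m ^ 2 * N m ≤ (1 / 2) ^ m)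
    (A B μ : ℕ → ℕ → ℝ) (h : ∀ m, ∀ j < N m, ∀ l < N m, j ≠ l → (N m : ℝ) ^ 2 ≤ |μ m j - μ m l|) :
    ∀ᵐ t : ℝ, Tendsto (fun m => (c m : ℂ) * ∑ j ∈ Finset.range (N m),
      cexp ((A m j + B m j * t + μ m j * t ^ 2 : ℝ) * I)) atTop (𝓝 0) := by
  have h1 := fun m => second_moment (N m) (A m) (B m) (μ m) (h m)
  have h2 := ae_tendsto_zero (fun m => (h1 m).1.const_mul (c m ^ 2)) (fun m t => by positivity)
    (Summable.of_nonneg_of_le (fun m => integral_nonneg fun t => by positivity) (fun m => ?_)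
      (summable_geometric_two.mul_left 4))
  · filter_upwards [h2] with t ht
    have h3 := (ht.const_mul (Real.exp (t ^ 2))).sqrt
    rw [mul_zero, Real.sqrt_zero] at h3
    refine tendsto_zero_iff_norm_tendsto_zero.2 (h3.congr fun m => ?_)
    rw [mul_left_comm, ← mul_assoc (Real.exp _), ← Real.exp_add, add_neg_cancel, Real.exp_zero,
      one_mul, norm_mul, norm_real, ← sq_abs (c m), ← mul_pow, Real.sqrt_sq (by positivity),
      Real.norm_eq_abs]
  · rw [integral_const_mul]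
    calc _ ≤ c m ^ 2 * (4 * N m) := mul_le_mul_of_nonneg_left (h1 m).2 (sq_nonneg _)
      _ ≤ _ := by linarith [hc m]

end Pool.Agent.Lib.MP_5ea425_an
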