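import Pool.Agent.Lib.MP_5ea425_an.Null
import Pool.Agent.Lib.MP_5ea425_an.Phase

/-!
The construction for a space with long biorthogonal blocks of small unconditional constant.
-/

set_option autoImplicit false

open MeasureTheory Filter Topology Complex

namespace Pool.Agent.Lib.MP_5ea425_an

/-- A perturbation of the identity by a contraction that moves a set of good points off itself. -/
theorem of_contraction {X : Type*} [NormedAddCommGroup X] [NormedSpace ℝ X] [CompleteSpace X]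
    [MeasurableSpace X] [BorelSpace X] (π : X →L[ℝ] ℝ) {x₀ : X} (h₀ : π x₀ ≠ 0) {U : X → X}
    {ε : ℝ} (hε : ε ≤ 1) (hU' : ∀ x y, ‖U x - U y‖ ≤ ε / 2 * ‖x - y‖) {G : Set X}
    (hG : MeasurableSet G)
    (h : ∀ f v : X, π f = 0 → π v = 1 → ∀ᵐ c : ℝ, f + c • v ∈ G) (hd : ∀ x ∈ G, x + U x ∉ G) :
    ∃ (A : Set X) (T : X ≃ X) (K L : NNReal), LipschitzWith K T ∧ LipschitzWith L T.symm ∧
      (∀ x y, ‖T x - x - (T y - y)‖ ≤ ε / 2 * ‖x - y‖) ∧
      AronszajnNull A ∧ AronszajnNull (T '' A)ᶜ := by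
  have hU : ∀ x y, ‖U x - U y‖ ≤ 1 / 2 * ‖x - y‖ := fun x y =>
    (hU' x y).trans (mul_le_mul_of_nonneg_right (by linarith) (norm_nonneg _))
  have l0 : LipschitzWith (1 / 2) U := LipschitzWith.of_dist_le_mul fun x y => by
    simpa [dist_eq_norm] using hU x y
  have ha : ∀ x y, ‖x - y‖ ≤ 2 * ‖x + U x - (y + U y)‖ := fun x y => by
    have h1 := norm_sub_le (x + U x - (y + U y)) (U x - U y)
    rw [show x + U x - (y + U y) - (U x - U y) = x - y by abel] at h1
    linarith [hU x y]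
  have hb : Function.Bijective fun x => x + U x := by
    refine ⟨fun x y hxy => ?_, fun w => ?_⟩
    · have h1 := ha x y
      rw [show x + U x = y + U y from hxy, sub_self, norm_zero, mul_zero] at h1
      exact sub_eq_zero.1 (norm_le_zero_iff.1 h1)
    · have hc : ContractingWith (1 / 2) fun y => w - U y :=
        ⟨by norm_num, by simpa using (LipschitzWith.const w).sub l0⟩
      have : Nonempty X := ⟨0⟩
      exact ⟨_, eq_sub_iff_add_eq.1 hc.fixedPoint_isFixedPt.symm⟩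
  set T := Equiv.ofBijective _ hb
  have l2 : LipschitzWith 2 T.symm := LipschitzWith.of_dist_le_mul fun x y => by
    have h1 := ha (T.symm x) (T.symm y)
    rw [show T.symm x + U (T.symm x) = x from T.apply_symm_apply x,
      show T.symm y + U (T.symm y) = y from T.apply_symm_apply y] at h1
    simpa [dist_eq_norm] using h1
  have e : (T '' Gᶜ)ᶜ = T.symm ⁻¹' G := by
    rw [Equiv.image_eq_preimage_symm, Set.preimage_compl, compl_compl]
  refine ⟨Gᶜ, T, _, _, LipschitzWith.id.add l0, l2, fun x y => ?_,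
    null_of_lines π h₀ hG.compl h, ?_⟩
  · change ‖x + U x - x - (y + U y - y)‖ ≤ _
    rw [add_sub_cancel_left, add_sub_cancel_left]
    exact hU' x y
  rw [e]
  refine null_of_lines π h₀ (l2.continuous.measurable hG) fun f v h1 h2 =>
    measure_mono_null (fun c hc => ?_) (h f v h1 h2)
  have := hd _ hc
  rwa [show T.symm (f + c • v) + U (T.symm (f + c • v)) = f + c • v from
    T.apply_symm_apply _] at this

theorem cos_slope (u v : ℝ) : ∃ s : ℝ, |s| ≤ 1 ∧ Real.cos u - Real.cos v = s * (u - v) := by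
  rcases eq_or_ne u v with rfl | h
  · exact ⟨0, by simp, by simp⟩
  · have h1 := sub_ne_zero.2 h
    refine ⟨(Real.cos u - Real.cos v) / (u - v), ?_, (div_mul_cancel₀ _ h1).symm⟩
    rw [abs_div, div_le_one (abs_pos.2 h1)]
    exact Real.abs_cos_sub_cos_le u v

/-- The square of the truncation at level `R`. -/
noncomputable def tsq (R t : ℝ) : ℝ := (max (-R) (min R t)) ^ 2

theorem tsq_sub {R : ℝ} (hR : 0 ≤ R) (s t : ℝ) : |tsq R s - tsq R t| ≤ 2 * R * |s - t| := by
  have h (s : ℝ) : |max (-R) (min R s)| ≤ R :=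
    abs_le.2 ⟨le_max_left _ _, max_le (by linarith) (min_le_left _ _)⟩
  have h1 : |max (-R) (min R s) - max (-R) (min R t)| ≤ |s - t| := by
    refine (abs_max_sub_max_le_max _ _ _ _).trans (max_le (by simp) ?_)
    exact (abs_min_sub_min_le_max _ _ _ _).trans (max_le (by simp) le_rfl)
  rw [tsq, tsq, sq_sub_sq, abs_mul]
  refine mul_le_mul ((abs_add_le _ _).trans ?_) h1 (abs_nonneg _) (by positivity)
  linarith [h s, h t]

theorem tsq_eq {R t : ℝ} (h : |t| ≤ R) : tsq R t = t ^ 2 := by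
  rw [tsq, min_eq_right (abs_le.1 h).2, max_eq_right (abs_le.1 h).1]

theorem shift_gain (θ δ : ℝ) (h0 : 0 ≤ δ) (h1 : δ ≤ 1) :
    δ * (1 + (cexp ((2 * θ : ℝ) * I)).re) / 2 - δ ^ 2 ≤
      (cexp ((θ + δ * Real.cos θ : ℝ) * I)).im - (cexp (θ * I)).im := by
  set h := δ * Real.cos θ with hh
  have a1 : |h| ≤ δ := by
    rw [hh, abs_mul, abs_of_nonneg h0]
    exact mul_le_of_le_one_right h0 (Real.abs_cos_le_one θ)
  have n1 : ‖(h * I : ℂ)‖ = |h| := by simp
  have a2 := norm_exp_sub_one_sub_id_le (x := h * I) (by rw [n1]; linarith)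
  have a3 : ‖cexp (θ * I) * (cexp (h * I) - 1 - h * I)‖ ≤ δ ^ 2 := by
    rw [norm_mul, norm_exp_ofReal_mul_I, one_mul]
    refine a2.trans ?_
    rw [n1]
    exact pow_le_pow_left₀ (abs_nonneg _) a1 2
  have a4 := (abs_le.1 ((abs_im_le_norm _).trans a3)).1
  rw [mul_sub, mul_sub, ← exp_add, mul_one, sub_im, sub_im, ← add_mul, ← ofReal_add, ← mul_assoc,
    mul_I_im, mul_comm (cexp (θ * I)), re_ofReal_mul, exp_ofReal_mul_I_re] at a4
  rw [exp_ofReal_mul_I_re, Real.cos_two_mul]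
  have : h * Real.cos θ = δ * (1 + (2 * Real.cos θ ^ 2 - 1)) / 2 := by
    rw [hh]
    ring
  linarith

theorem block_lip {X : Type*} [NormedAddCommGroup X] [NormedSpace ℝ X] (π : X →L[ℝ] ℝ) (N : ℕ)
    (e : ℕ → X) (φ : ℕ → X →L[ℝ] ℝ) (μ : ℕ → ℝ) (hμ : ∀ j, 0 ≤ μ j) {δ Λ R η : ℝ} (h0 : 0 ≤ δ)
    (h1 : δ ≤ 1) (hΛ : 0 < Λ) (hR : 0 ≤ R)
    (hu : ∀ (s : ℕ → ℝ) (z : X), (∀ j, |s j| ≤ 1) →
      δ * ‖∑ j ∈ Finset.range N, (s j * φ j z) • e j‖ ≤ η * ‖z‖)
    (hD : (∑ j ∈ Finset.range N, (1 + μ j * (2 * R * ‖π‖)) * ‖e j‖) / Λ ≤ η) :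
    (∀ x, ‖∑ j ∈ Finset.range N, (δ / Λ * Real.cos (Λ * φ j x + μ j * tsq R (π x))) • e j‖ ≤ η) ∧
    ∀ x y, ‖∑ j ∈ Finset.range N, (δ / Λ * Real.cos (Λ * φ j x + μ j * tsq R (π x))) • e j -
      ∑ j ∈ Finset.range N, (δ / Λ * Real.cos (Λ * φ j y + μ j * tsq R (π y))) • e j‖ ≤
      2 * η * ‖x - y‖ := by
  have hd : δ / Λ ≤ 1 / Λ := div_le_div_of_nonneg_right h1 hΛ.le
  have hd0 : 0 ≤ δ / Λ := by positivity
  refine ⟨fun x => (norm_sum_le_of_le _ fun j _ => ?_).trans ((Finset.sum_div _ _ _).ge.trans hD),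
    fun x y => ?_⟩
  · rw [norm_smul, mul_div_right_comm, Real.norm_eq_abs, abs_mul, abs_of_nonneg hd0]
    refine mul_le_mul_of_nonneg_right ((mul_le_of_le_one_right hd0 (Real.abs_cos_le_one _)).trans
      (hd.trans (div_le_div_of_nonneg_right (le_add_of_nonneg_right ?_) hΛ.le))) (norm_nonneg _)
    have := hμ j
    positivity
  · choose s hs1 hs2 using fun j => cos_slope (Λ * φ j x + μ j * tsq R (π x))
      (Λ * φ j y + μ j * tsq R (π x))
    have e1 : ∑ j ∈ Finset.range N, (δ / Λ * Real.cos (Λ * φ j x + μ j * tsq R (π x))) • e j -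
        ∑ j ∈ Finset.range N, (δ / Λ * Real.cos (Λ * φ j y + μ j * tsq R (π y))) • e j =
        δ • ∑ j ∈ Finset.range N, (s j * φ j (x - y)) • e j +
        ∑ j ∈ Finset.range N, (δ / Λ * (Real.cos (Λ * φ j y + μ j * tsq R (π x)) -
          Real.cos (Λ * φ j y + μ j * tsq R (π y)))) • e j := by
      rw [Finset.smul_sum, ← Finset.sum_sub_distrib, ← Finset.sum_add_distrib]
      refine Finset.sum_congr rfl fun j _ => ?_
      rw [smul_smul, ← sub_smul, ← add_smul, map_sub, eq_add_of_sub_eq (hs2 j)]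
      refine congrArg (· • e j) ?_
      field_simp
      ring
    have e2 : ‖∑ j ∈ Finset.range N, (δ / Λ * (Real.cos (Λ * φ j y + μ j * tsq R (π x)) -
        Real.cos (Λ * φ j y + μ j * tsq R (π y)))) • e j‖ ≤ η * ‖x - y‖ := by
      refine le_trans ?_ (mul_le_mul_of_nonneg_right hD (norm_nonneg _))
      rw [Finset.sum_div, Finset.sum_mul]
      refine norm_sum_le_of_le _ fun j _ => ?_
      have b1 : |Real.cos (Λ * φ j y + μ j * tsq R (π x)) -
          Real.cos (Λ * φ j y + μ j * tsq R (π y))| ≤ (1 + μ j * (2 * R * ‖π‖)) * ‖x - y‖ := by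
        refine (Real.abs_cos_sub_cos_le _ _).trans ?_
        rw [add_sub_add_left_eq_sub, ← mul_sub, abs_mul, abs_of_nonneg (hμ j), add_mul, one_mul]
        refine le_add_of_nonneg_of_le (norm_nonneg _) ?_
        rw [mul_assoc]
        refine mul_le_mul_of_nonneg_left ((tsq_sub hR _ _).trans ?_) (hμ j)
        rw [mul_assoc (2 * R), ← map_sub]
        exact mul_le_mul_of_nonneg_left (π.le_opNorm _) (by positivity)
      rw [norm_smul, Real.norm_eq_abs, abs_mul, abs_of_nonneg hd0]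
      calc _ ≤ 1 / Λ * ((1 + μ j * (2 * R * ‖π‖)) * ‖x - y‖) * ‖e j‖ :=
            mul_le_mul_of_nonneg_right (mul_le_mul hd b1 (abs_nonneg _) (by positivity))
              (norm_nonneg _)
        _ = _ := by ring
    rw [e1]
    refine (norm_add_le _ _).trans ?_
    rw [norm_smul, Real.norm_of_nonneg h0]
    linarith [hu s (x - y) hs1]

theorem core {X : Type*} [NormedAddCommGroup X] [NormedSpace ℝ X] [CompleteSpace X]
    [MeasurableSpace X] [BorelSpace X] (π : X →L[ℝ] ℝ) {x₀ : X} (h₀ : π x₀ ≠ 0) {ε : ℝ}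
    (hε0 : 0 < ε) (hε : ε ≤ 1) (N : ℕ → ℕ) (δ : ℕ → ℝ)
    (e : ℕ → ℕ → X) (φ : ℕ → ℕ → X →L[ℝ] ℝ) (hN : ∀ m, 0 < N m) (h0 : ∀ m, 0 < δ m)
    (h1 : ∀ m, δ m ≤ (1 / 2) ^ m) (h2 : ∀ m, 1 / (δ m ^ 2 * N m) ≤ (1 / 2) ^ m)
    (hπ : ∀ m, ∀ j < N m, π (e m j) = 0)
    (hb : ∀ m, ∀ j < N m, ∀ l < N m, φ m j (e m l) = if j = l then 1 else 0)
    (hc : ∀ m m', m ≠ m' → ∀ j < N m, ∀ l < N m', φ m j (e m' l) = 0)
    (hu : ∀ (m : ℕ) (s : ℕ → ℝ) (z : X), (∀ j, |s j| ≤ 1) →
      δ m * ‖∑ j ∈ Finset.range (N m), (s j * φ m j z) • e m j‖ ≤ ε * (1 / 2) ^ m / 8 * ‖z‖) :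
    ∃ (A : Set X) (T : X ≃ X) (K L : NNReal), LipschitzWith K T ∧ LipschitzWith L T.symm ∧
      (∀ x y, ‖T x - x - (T y - y)‖ ≤ ε / 2 * ‖x - y‖) ∧
      AronszajnNull A ∧ AronszajnNull (T '' A)ᶜ := by
  have h1' : ∀ m, δ m ≤ 1 := fun m => (h1 m).trans (pow_le_one₀ (by norm_num) (by norm_num))
  have hN' : ∀ m, (0 : ℝ) < N m := fun m => by exact_mod_cast hN m
  obtain ⟨μ, hμ⟩ : ∃ μ : ℕ → ℕ → ℝ, ∀ m j, μ m j = j * (N m : ℝ) ^ 2 := ⟨_, fun _ _ => rfl⟩
  have hμ0 : ∀ m j, 0 ≤ μ m j := fun m j => by rw [hμ]; positivity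
  have hμ1 : ∀ m j l, j ≠ l → (N m : ℝ) ^ 2 ≤ |μ m j - μ m l| := fun m j l hjl => by
    rw [hμ, hμ, ← sub_mul, abs_mul, abs_of_nonneg (sq_nonneg (N m : ℝ))]
    refine le_mul_of_one_le_left (sq_nonneg _) ?_
    have : (1 : ℤ) ≤ |(j : ℤ) - l| := Int.one_le_abs (sub_ne_zero.2 (by exact_mod_cast hjl))
    exact_mod_cast this
  obtain ⟨Λ, hΛ, hD⟩ : ∃ Λ : ℕ → ℝ, (∀ m, 0 < Λ m) ∧ ∀ m : ℕ, (∑ j ∈ Finset.range (N m),
      (1 + μ m j * (2 * m * ‖π‖)) * ‖e m j‖) / Λ m ≤ ε * (1 / 2) ^ m / 8 := by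
    have hD : ∀ m : ℕ, 0 ≤ ∑ j ∈ Finset.range (N m), (1 + μ m j * (2 * m * ‖π‖)) * ‖e m j‖ :=
      fun m => Finset.sum_nonneg fun j _ => by have := hμ0 m j; positivity
    refine ⟨fun m => (∑ j ∈ Finset.range (N m), (1 + μ m j * (2 * m * ‖π‖)) * ‖e m j‖ + 1) /
      (ε * (1 / 2) ^ m / 8), fun m => by have := hD m; positivity, fun m => ?_⟩
    have := hD m
    rw [div_div_eq_mul_div, div_le_iff₀ (by positivity), mul_comm]
    exact mul_le_mul_of_nonneg_left (by linarith) (by positivity)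
  obtain ⟨U, hU⟩ : ∃ U : ℕ → X → X, ∀ m x, U m x = ∑ j ∈ Finset.range (N m),
      (δ m / Λ m * Real.cos (Λ m * φ m j x + μ m j * tsq m (π x))) • e m j := ⟨_, fun _ _ => rfl⟩
  have hl := fun m : ℕ => block_lip π (N m) (e m) (φ m) (μ m) (hμ0 m) (h0 m).le (h1' m) (hΛ m)
    m.cast_nonneg (hu m) (hD m)
  simp only [← hU] at hl
  have hs : ∀ x, Summable fun m => U m x := fun x =>
    Summable.of_norm_bounded ((summable_geometric_two.mul_left ε).div_const 8)
      fun m => (hl m).1 x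
  obtain ⟨θ, hθ⟩ : ∃ θ : ℕ → ℕ → X → ℝ, ∀ m j x, θ m j x = Λ m * φ m j x + μ m j * π x ^ 2 :=
    ⟨_, fun _ _ _ => rfl⟩
  have hθc : ∀ m j, Continuous (θ m j) := fun m j => by
    rw [show θ m j = fun x => Λ m * φ m j x + μ m j * π x ^ 2 from funext (hθ m j)]
    fun_prop
  refine of_contraction π h₀ (U := fun x => ∑' m, U m x) hε (fun x y => ?_)
    (G := {x | Tendsto (fun m => ((1 / (δ m * N m) : ℝ) : ℂ) * ∑ j ∈ Finset.range (N m),
        cexp (θ m j x * I)) atTop (𝓝 0)} ∩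
      {x | Tendsto (fun m => ((1 / (N m) : ℝ) : ℂ) * ∑ j ∈ Finset.range (N m),
        cexp ((2 * θ m j x : ℝ) * I)) atTop (𝓝 0)})
    ((measurableSet_tendsto _ fun m => Continuous.measurable (by fun_prop)).inter
      (measurableSet_tendsto _ fun m => Continuous.measurable (by fun_prop)))
    (fun f v hf hv => ?_) fun x hx hx' => ?_
  · rw [← (hs x).tsum_sub (hs y)]
    have := ((hasSum_geometric_two.mul_left ε).div_const 8).mul_left 2 |>.mul_right ‖x - y‖
    refine (tsum_of_norm_bounded this fun m => (hl m).2 x y).trans (le_of_eq ?_)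
    ring
  · have a1 := ae_phase N (fun m => 1 / (δ m * N m)) (fun m => (le_of_eq ?_).trans (h2 m))
      (fun m j => Λ m * φ m j f) (fun m j => Λ m * φ m j v) μ fun m j _ l _ => hμ1 m j l
    have a2 := ae_phase N (fun m => 1 / N m) (fun m => le_trans ?_ (h2 m))
      (fun m j => 2 * (Λ m * φ m j f)) (fun m j => 2 * (Λ m * φ m j v)) (fun m j => 2 * μ m j)
      fun m j _ l _ hjl => ?_
    · filter_upwards [a1, a2] with t b1 b2
      have : ∀ m j, θ m j (f + t • v) = Λ m * φ m j f + Λ m * φ m j v * t + μ m j * t ^ 2 :=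
        fun m j => by
          simp only [hθ, map_add, map_smul, hf, hv, smul_eq_mul]
          ring
      refine ⟨b1.congr fun m => ?_, b2.congr fun m => ?_⟩
      · simp only [this]
      · simp only [this, mul_add, mul_assoc]
    · have := hN' m
      have := h0 m
      rw [div_pow, one_pow, sq, div_mul_eq_mul_div, one_mul, div_mul_cancel_right₀ (hN' m).ne',
        ← one_div]
      exact one_div_le_one_div_of_le (by positivity)
        (mul_le_of_le_one_left (hN' m).le (pow_le_one₀ (h0 m).le (h1' m)))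
    · rw [← mul_sub, abs_mul, abs_two]
      linarith [hμ1 m j l hjl, abs_nonneg (μ m j - μ m l)]
    · have := (hN' m).ne'
      have := (h0 m).ne'
      field_simp
  · have p1 : π (x + ∑' m, U m x) = π x := by
      rw [map_add, π.map_tsum (hs x), add_eq_left]
      refine (tsum_congr fun m => ?_).trans tsum_zero
      rw [hU, map_sum]
      exact Finset.sum_eq_zero fun j hj => by
        rw [map_smul, hπ m j (Finset.mem_range.1 hj), smul_zero]
    have p2 : ∀ m : ℕ, |π x| ≤ m → ∀ j < N m,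
        θ m j (x + ∑' m, U m x) = θ m j x + δ m * Real.cos (θ m j x) := fun m hm j hj => by
      rw [hθ, hθ, p1, map_add, (φ m j).map_tsum (hs x), tsum_eq_single m, hU, map_sum,
        Finset.sum_eq_single j, map_smul, hb m j hj j hj, if_pos rfl, tsq_eq hm, smul_eq_mul]
      · have := (hΛ m).ne'
        field_simp
        ring
      · intro l hl hlj
        rw [map_smul, hb m j hj l (Finset.mem_range.1 hl), if_neg hlj.symm, smul_zero]
      · exact fun h => (h (Finset.mem_range.2 hj)).elim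
      · intro m' hm'
        rw [hU, map_sum]
        exact Finset.sum_eq_zero fun l hl => by
          rw [map_smul, hc m m' hm'.symm j hj l (Finset.mem_range.1 hl), smul_zero]
    have t1 := ((continuous_im.tendsto _).comp hx'.1).sub ((continuous_im.tendsto _).comp hx.1)
    have t2 := ((((continuous_re.tendsto _).comp hx.2).const_add 1).div_const 2).sub
      (squeeze_zero (fun m => (h0 m).le) h1
        (tendsto_pow_atTop_nhds_zero_of_lt_one (by norm_num) (by norm_num)))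
    have t3 := le_of_tendsto_of_tendsto t2 t1 ?_
    · norm_num at t3
    · filter_upwards [tendsto_natCast_atTop_atTop.eventually_ge_atTop |π x|] with m hm
      have g := Finset.sum_le_sum fun j (hj : j ∈ Finset.range (N m)) =>
        (shift_gain (θ m j x) (δ m) (h0 m).le (h1' m)).trans_eq
          (by rw [← p2 m hm j (Finset.mem_range.1 hj)])
      simp only [Function.comp, im_ofReal_mul, re_ofReal_mul, im_sum, re_sum]
      rw [Finset.sum_sub_distrib, Finset.sum_sub_distrib, ← Finset.sum_div, ← Finset.mul_sum,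
        Finset.sum_add_distrib, Finset.sum_const, Finset.sum_const, Finset.card_range,
        nsmul_eq_mul, nsmul_eq_mul] at g
      have q1 := hN' m
      have q2 := h0 m
      rw [← mul_sub]
      refine le_trans (le_of_eq ?_) (mul_le_mul_of_nonneg_left g (by positivity))
      generalize ∑ j ∈ Finset.range (N m), (cexp ((2 * θ m j x : ℝ) * I)).re = S
      field_simp

end Pool.Agent.Lib.MP_5ea425_an
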