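import Pool.Agent.Lib.MP_5ea425_an.Blocks

/-!
The sequence spaces `ℓ_p` with finite exponent are separable and contain uniformly complemented
copies of `ℓ_p^n`.
-/

set_option autoImplicit false

namespace Pool.Agent.Lib.MP_5ea425_an

theorem unifCompl_lp (p : ENNReal) [Fact (1 ≤ p)] (hp : p ≠ ⊤) :
    UnifCompl p (lp (fun _ : ℕ => ℝ) p) := by
  have hp' : 0 < p.toReal := ENNReal.toReal_pos (zero_lt_one.trans_le Fact.out).ne' hp
  refine ⟨1, fun n => ⟨∑ a : Fin n, (lp.singleContinuousLinearMap ℝ (fun _ : ℕ => ℝ) p a).comp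
    (PiLp.proj p _ a), (PiLp.continuousLinearEquiv p ℝ _).symm.toContinuousLinearMap.comp
      (ContinuousLinearMap.pi fun a : Fin n => lp.evalCLM ℝ (fun _ : ℕ => ℝ) p a), ?_, ?_, ?_⟩⟩
  · refine ContinuousLinearMap.opNorm_le_bound _ zero_le_one fun z => ?_
    have h := lp.norm_sum_single (E := fun _ : ℕ => ℝ) hp'
      (fun j => if h : j < n then z ⟨j, h⟩ else 0) (Finset.range n)
    rw [Finset.sum_range, Finset.sum_range] at h
    simp only [Fin.is_lt, dif_pos, Fin.eta] at h
    rw [one_mul, PiLp.norm_eq_sum hp', ← h, one_div, Real.rpow_rpow_inv (norm_nonneg _) hp'.ne']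
    simp
  · refine ContinuousLinearMap.opNorm_le_bound _ zero_le_one fun x => ?_
    have h := lp.sum_rpow_le_norm_rpow hp' x (Finset.range n)
    rw [Finset.sum_range] at h
    rw [one_mul, PiLp.norm_eq_sum hp', one_div]
    exact (Real.rpow_le_rpow (by positivity) h (by positivity)).trans_eq
      (Real.rpow_rpow_inv (norm_nonneg _) hp'.ne')
  · intro z
    refine PiLp.ext fun a => ?_
    change lp.evalCLM ℝ (fun _ : ℕ => ℝ) p a _ = _
    rw [sum_apply, map_sum, Finset.sum_eq_single a]
    · exact lp.single_apply_self (E := fun _ : ℕ => ℝ) p (a : ℕ) (z a)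
    · exact fun b _ hb => lp.single_apply_ne (E := fun _ : ℕ => ℝ) p (b : ℕ) (z b)
        fun h => hb (Fin.ext h.symm)
    · simp

theorem separable_lp (p : ENNReal) [Fact (1 ≤ p)] (hp : p ≠ ⊤) :
    TopologicalSpace.SeparableSpace (lp (fun _ : ℕ => ℝ) p) := by
  have h : TopologicalSpace.IsSeparable (closure (Submodule.span ℝ
      (Set.range fun i : ℕ => lp.single (E := fun _ : ℕ => ℝ) p i (1 : ℝ)) :
        Set (lp (fun _ : ℕ => ℝ) p))) :=
    (Set.countable_range _).isSeparable.span.closure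
  refine TopologicalSpace.isSeparable_univ_iff.1 (h.mono fun x _ => ?_)
  refine mem_closure_of_tendsto (lp.hasSum_single hp x) (Filter.Eventually.of_forall fun s => ?_)
  refine Submodule.sum_mem _ fun i _ => ?_
  have := lp.single_smul (E := fun _ : ℕ => ℝ) p i (x i) (1 : ℝ)
  rw [smul_eq_mul, mul_one] at this
  rw [this]
  exact Submodule.smul_mem _ _ (Submodule.subset_span ⟨i, rfl⟩)

end Pool.Agent.Lib.MP_5ea425_an
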