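import Pool.Agent.Lib.MP_5ea425_an.Null

/-!
The example in `ℝ × L¹(ℝ)`: the shear along the curve of indicator functions of unit intervals.
-/

set_option autoImplicit false

open MeasureTheory Filter Topology

namespace Pool.Agent.Lib.MP_5ea425_an

/-- The space `L¹(ℝ)`. -/
abbrev L1 : Type := Lp ℝ 1 (volume : Measure ℝ)

/-- The primitive of an integrable function. -/
noncomputable def prim (f : L1) (x : ℝ) : ℝ := ∫ s in (0 : ℝ)..x, f s

theorem L1_ii (f : L1) (a b : ℝ) : IntervalIntegrable f volume a b :=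
  (L1.integrable_coeFn f).intervalIntegrable

theorem prim_add (f g : L1) (x : ℝ) : prim (f + g) x = prim f x + prim g x := by
  unfold prim
  rw [← intervalIntegral.integral_add (L1_ii f _ _) (L1_ii g _ _)]
  refine intervalIntegral.integral_congr_ae ?_
  filter_upwards [Lp.coeFn_add f g] with s hs _ using hs

theorem prim_smul (c : ℝ) (f : L1) (x : ℝ) : prim (c • f) x = c * prim f x := by
  unfold prim
  rw [← intervalIntegral.integral_const_mul]
  refine intervalIntegral.integral_congr_ae ?_
  filter_upwards [Lp.coeFn_smul c f] with s hs _ using hs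

theorem prim_le (f : L1) (x : ℝ) : ‖prim f x‖ ≤ 1 * ‖f‖ := by
  rw [one_mul, L1.norm_eq_integral_norm]
  refine intervalIntegral.norm_integral_le_integral_norm_uIoc.trans ?_
  exact setIntegral_le_integral (L1.integrable_coeFn f).norm
    (Eventually.of_forall fun _ => norm_nonneg _)

/-- The primitive at a point, as a functional. -/
noncomputable def primL (x : ℝ) : L1 →L[ℝ] ℝ :=
  LinearMap.mkContinuous
    { toFun := fun f => prim f x
      map_add' := fun f g => prim_add f g x
      map_smul' := fun c f => prim_smul c f x } 1 fun f => prim_le f x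

theorem prim_continuous : Continuous fun p : L1 × ℝ => prim p.1 p.2 :=
  continuous_prod_of_continuous_lipschitzWith _ 1
    (fun f => intervalIntegral.continuous_primitive (L1_ii f) 0) fun x =>
    LipschitzWith.of_dist_le_mul fun f g => by
      have := prim_le (f - g) x
      rw [show prim (f - g) x = prim f x - prim g x from (primL x).map_sub f g] at this
      simpa [dist_eq_norm] using this

/-- The indicator function of `(c, c + 1]`. -/
noncomputable def ind (c : ℝ) : L1 :=
  indicatorConstLp 1 (measurableSet_Ioc (a := c) (b := c + 1)) measure_Ioc_lt_top.ne (1 : ℝ)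

theorem ind_lipschitz : LipschitzWith 2 ind := by
  refine LipschitzWith.of_dist_le_mul fun a b => ?_
  rw [ind, ind, dist_indicatorConstLp_eq_norm, norm_indicatorConstLp one_ne_zero ENNReal.one_ne_top]
  have h : symmDiff (Set.Ioc a (a + 1)) (Set.Ioc b (b + 1)) ⊆
      Set.uIcc a b ∪ Set.uIcc (a + 1) (b + 1) := by
    intro x hx
    simp only [Set.mem_symmDiff, Set.mem_Ioc, not_and, not_le] at hx
    simp only [Set.mem_union, Set.mem_uIcc]
    rcases hx with ⟨⟨h1, h2⟩, h3⟩ | ⟨⟨h1, h2⟩, h3⟩
    · by_cases h4 : b < x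
      · exact Or.inr (Or.inr ⟨(h3 h4).le, h2⟩)
      · exact Or.inl (Or.inl ⟨h1.le, not_lt.1 h4⟩)
    · by_cases h4 : a < x
      · exact Or.inr (Or.inl ⟨(h3 h4).le, h2⟩)
      · exact Or.inl (Or.inr ⟨h1.le, not_lt.1 h4⟩)
  have h1 := (measureReal_mono (μ := volume) h
    (measure_union_ne_top isCompact_uIcc.measure_ne_top isCompact_uIcc.measure_ne_top)).trans
    (measureReal_union_le _ _)
  rw [Real.volume_real_interval, Real.volume_real_interval, add_sub_add_right_eq_sub] at h1
  simp only [norm_one, ENNReal.toReal_one, div_one, Real.rpow_one, one_mul, NNReal.coe_ofNat,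
    Real.dist_eq]
  rw [abs_sub_comm]
  linarith

theorem prim_ind (c : ℝ) {a b : ℝ} (h : a ≤ b) :
    prim (ind c) b - prim (ind c) a = max (min b (c + 1) - max a c) 0 := by
  unfold prim
  rw [intervalIntegral.integral_interval_sub_left (L1_ii _ _ _) (L1_ii _ _ _),
    intervalIntegral.integral_of_le h, ind, setIntegral_indicatorConstLp measurableSet_Ioc,
    Set.Ioc_inter_Ioc, Real.volume_real_Ioc, smul_eq_mul, mul_one, max_comm a, min_comm b]

/-- The symmetric second difference quotient of the primitive. -/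
noncomputable def quot (n : ℕ) (p : ℝ × L1) : ℝ :=
  ((n : ℝ) + 1) * ((prim p.2 (p.1 + 1 / ((n : ℝ) + 1)) - prim p.2 p.1) -
    (prim p.2 p.1 - prim p.2 (p.1 - 1 / ((n : ℝ) + 1))))

theorem quot_continuous (n : ℕ) : Continuous (quot n) := by
  have h (a : ℝ × L1 → ℝ) (ha : Continuous a) : Continuous fun p : ℝ × L1 => prim p.2 (a p) :=
    prim_continuous.comp (continuous_snd.prodMk ha)
  exact continuous_const.mul (((h _ (by fun_prop)).sub (h _ continuous_fst)).sub
    ((h _ continuous_fst).sub (h _ (by fun_prop))))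

theorem quot_add (n : ℕ) (c : ℝ) (f g : L1) : quot n (c, f + g) = quot n (c, f) + quot n (c, g) := by
  simp only [quot, prim_add]
  ring

theorem quot_smul (n : ℕ) (c a : ℝ) (f : L1) : quot n (c, a • f) = a * quot n (c, f) := by
  simp only [quot, prim_smul]
  ring

theorem quot_ind (n : ℕ) (c : ℝ) : quot n (c, ind c) = 1 := by
  have h0 : (0 : ℝ) < 1 / ((n : ℝ) + 1) := by positivity
  have h1 : 1 / ((n : ℝ) + 1) ≤ 1 := by
    rw [div_le_one (by positivity)]
    linarith [n.cast_nonneg (α := ℝ)]
  simp only [quot]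
  rw [prim_ind c (by linarith), prim_ind c (by linarith), min_eq_left (by linarith), max_self,
    min_eq_left (by linarith), max_eq_right (sub_le_self c h0.le), sub_self, max_self,
    add_sub_cancel_left, max_eq_left h0.le, sub_zero]
  field_simp

theorem quot_ae (f : L1) : ∀ᵐ c : ℝ, Tendsto (fun n => quot n (c, f)) atTop (𝓝 0) := by
  filter_upwards [LocallyIntegrable.ae_hasDerivAt_integral
    (L1.integrable_coeFn f).locallyIntegrable] with c hc
  have h := hasDerivAt_iff_tendsto_slope_zero.1 (hc 0)
  have h0 : Tendsto (fun n : ℕ => 1 / ((n : ℝ) + 1)) atTop (𝓝 0) :=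
    tendsto_one_div_add_atTop_nhds_zero_nat
  have h1 : Tendsto (fun n : ℕ => 1 / ((n : ℝ) + 1)) atTop (𝓝[≠] 0) :=
    tendsto_nhdsWithin_iff.2 ⟨h0, Eventually.of_forall fun n => by
      simp only [Set.mem_compl_iff, Set.mem_singleton_iff]; positivity⟩
  have h2 : Tendsto (fun n : ℕ => -(1 / ((n : ℝ) + 1))) atTop (𝓝[≠] 0) :=
    tendsto_nhdsWithin_iff.2 ⟨by simpa using h0.neg, Eventually.of_forall fun n => by
      simp only [Set.mem_compl_iff, Set.mem_singleton_iff, neg_eq_zero]; positivity⟩
  have h3 := (h.comp h1).sub (h.comp h2)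
  rw [sub_self] at h3
  refine h3.congr fun n => ?_
  simp only [quot, prim, Function.comp, smul_eq_mul, inv_neg, one_div, inv_inv, ← sub_eq_add_neg]
  ring

theorem not_finite : ¬ FiniteDimensional ℝ (ℝ × L1) := by
  intro h
  have h1 : LinearIndependent ℝ fun n : ℕ => ((0, ind n) : ℝ × L1) := by
    refine LinearIndependent.of_pairwise_dual_eq_zero_one _
      (fun n => ((primL (n + 1) - primL n : L1 →L[ℝ] ℝ) : L1 →ₗ[ℝ] ℝ).comp (LinearMap.snd ℝ _ _))
      (fun i j hij => ?_) fun i => ?_
    · change prim (ind j) (i + 1) - prim (ind j) i = 0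
      rw [prim_ind _ (by linarith), max_eq_right]
      rcases hij.lt_or_gt with h | h
      · have : (i : ℝ) + 1 ≤ j := by exact_mod_cast h
        linarith [min_le_left ((i : ℝ) + 1) (j + 1), le_max_right (i : ℝ) j]
      · have : (j : ℝ) + 1 ≤ i := by exact_mod_cast h
        linarith [min_le_right ((i : ℝ) + 1) (j + 1), le_max_left (i : ℝ) j]
    · change prim (ind i) (i + 1) - prim (ind i) i = 1
      rw [prim_ind _ (by linarith)]
      simp
  exact Module.Finite.not_linearIndependent_of_infinite _ h1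

theorem main_L1 [MeasurableSpace (ℝ × L1)] [BorelSpace (ℝ × L1)] :
    ∃ (A : Set (ℝ × L1)) (T : ℝ × L1 ≃ ℝ × L1) (K L : NNReal), LipschitzWith K T ∧
      LipschitzWith L T.symm ∧ AronszajnNull A ∧ AronszajnNull (T '' A)ᶜ := by
  refine of_shear (ContinuousLinearMap.fst ℝ ℝ L1) (x₀ := (1, 0)) one_ne_zero
    (u := fun c => (0, ind c)) ((LipschitzWith.const _).prodMk ind_lipschitz) (fun _ => rfl)
    (G := {p | Tendsto (fun n => quot n p) atTop (𝓝 0)})
    (measurableSet_tendsto _ fun n => (quot_continuous n).measurable) ?_ ?_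
  · rintro ⟨a, f⟩ ⟨b, v⟩ (rfl : a = 0) (rfl : b = 1)
    filter_upwards [quot_ae f, quot_ae v] with c h1 h2
    have h3 := h1.add (h2.const_mul c)
    rw [mul_zero, add_zero] at h3
    refine h3.congr fun n => ?_
    rw [Prod.smul_mk, Prod.mk_add_mk, smul_eq_mul, mul_one, zero_add, quot_add, quot_smul]
  · rintro ⟨c, f⟩ h1 h2
    have h3 := Tendsto.sub h2 h1
    have h4 : (fun n => quot n ((c, f) + (0, ind c)) - quot n (c, f)) = fun _ => 1 := by
      funext n
      rw [Prod.mk_add_mk, add_zero, quot_add, quot_ind, add_sub_cancel_left]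
    rw [sub_zero] at h3
    exact one_ne_zero (tendsto_nhds_unique tendsto_const_nhds (h4 ▸ h3))

end Pool.Agent.Lib.MP_5ea425_an
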