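import Mathlib

/-!
Aronszajn null sets, and a criterion: a Borel set that is null on every line transversal to a
closed hyperplane is Aronszajn null.
-/

set_option autoImplicit false

open MeasureTheory

namespace Pool.Agent.Lib.MP_5ea425_an

/-- Aronszajn null sets. -/
def AronszajnNull {X : Type*} [NormedAddCommGroup X] [NormedSpace ℝ X] [MeasurableSpace X]
    (A : Set X) : Prop :=
  MeasurableSet A ∧ ∀ x : ℕ → X, Dense ((Submodule.span ℝ (Set.range x) : Set X)) →
    ∃ B : ℕ → Set X, (∀ n, MeasurableSet (B n)) ∧ A = ⋃ n, B n ∧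
      ∀ n, ∀ y : X, volume {t : ℝ | y + t • x n ∈ B n} = 0

theorem null_of_lines {X : Type*} [NormedAddCommGroup X] [NormedSpace ℝ X] [MeasurableSpace X]
    (π : X →L[ℝ] ℝ) {x₀ : X} (h₀ : π x₀ ≠ 0) {A : Set X} (hA : MeasurableSet A)
    (h : ∀ f v : X, π f = 0 → π v = 1 → volume {c : ℝ | f + c • v ∈ A} = 0) :
    AronszajnNull A := by
  refine ⟨hA, fun x hx => ?_⟩
  obtain ⟨n₀, hn⟩ : ∃ n, π (x n) ≠ 0 := by
    by_contra hn
    push Not at hn
    have h1 : (Submodule.span ℝ (Set.range x) : Set X) ⊆ {z | π z = 0} := fun z hz =>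
      (Submodule.span_le (p := LinearMap.ker (π : X →ₗ[ℝ] ℝ))).2
        (Set.range_subset_iff.2 hn) hz
    exact h₀ ((isClosed_eq π.continuous continuous_const).closure_subset_iff.2 h1 (hx x₀))
  refine ⟨fun n => if n = n₀ then A else ∅, fun n => ?_, ?_, fun n y => ?_⟩
  · dsimp only
    split_ifs
    exacts [hA, MeasurableSet.empty]
  · ext z
    simp only [Set.mem_iUnion]
    refine ⟨fun hz => ⟨n₀, by rwa [if_pos rfl]⟩, fun ⟨n, hz⟩ => ?_⟩
    split_ifs at hz
    exacts [hz, hz.elim]
  · dsimp only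
    split_ifs with e
    · subst e
      have h1 := h (y - (π y / π (x n)) • x n) ((π (x n))⁻¹ • x n) (by simp [hn]) (by simp [hn])
      have e : {t : ℝ | y + t • x n ∈ A} = (· * π (x n)) ⁻¹' ((π y + ·) ⁻¹'
          {c : ℝ | y - (π y / π (x n)) • x n + c • (π (x n))⁻¹ • x n ∈ A}) := by
        ext t
        have e1 : (π y + t * π (x n)) * (π (x n))⁻¹ - π y / π (x n) = t := by
          field_simp
          ring
        simp only [Set.mem_ofPred_eq, Set.mem_preimage, smul_smul]
        rw [sub_add_eq_add_sub, add_sub_assoc, ← sub_smul, e1]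
      rw [e, Real.volume_preimage_mul_right hn, measure_preimage_add, h1, mul_zero]
    · simp

/-- A shear along a Lipschitz curve in a hyperplane. -/
noncomputable def shear {X : Type*} [NormedAddCommGroup X] [NormedSpace ℝ X] (π : X →L[ℝ] ℝ)
    (u : ℝ → X) (hu : ∀ c, π (u c) = 0) : X ≃ X where
  toFun x := x + u (π x)
  invFun x := x - u (π x)
  left_inv x := by simp [hu]
  right_inv x := by simp [hu]

/-- The conclusion of the problem for a set of good points that the shear moves off itself. -/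
theorem of_shear {X : Type*} [NormedAddCommGroup X] [NormedSpace ℝ X] [MeasurableSpace X]
    [BorelSpace X] (π : X →L[ℝ] ℝ) {x₀ : X} (h₀ : π x₀ ≠ 0) {u : ℝ → X} {K : NNReal}
    (hK : LipschitzWith K u) (hu : ∀ c, π (u c) = 0) {G : Set X} (hG : MeasurableSet G)
    (h : ∀ f v : X, π f = 0 → π v = 1 → ∀ᵐ c : ℝ, f + c • v ∈ G)
    (hd : ∀ x ∈ G, x + u (π x) ∉ G) :
    ∃ (A : Set X) (T : X ≃ X) (K L : NNReal), LipschitzWith K T ∧ LipschitzWith L T.symm ∧
      AronszajnNull A ∧ AronszajnNull (T '' A)ᶜ := by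
  have l1 := hK.comp π.lipschitz
  have l2 : LipschitzWith _ (shear π u hu).symm := LipschitzWith.id.sub l1
  have e : (shear π u hu '' Gᶜ)ᶜ = (shear π u hu).symm ⁻¹' G := by
    rw [Equiv.image_eq_preimage_symm, Set.preimage_compl, compl_compl]
  refine ⟨Gᶜ, shear π u hu, _, _, LipschitzWith.id.add l1, l2,
    null_of_lines π h₀ hG.compl h, ?_⟩
  rw [e]
  refine null_of_lines π h₀ (l2.continuous.measurable hG) fun f v h1 h2 =>
    measure_mono_null (fun c hc => ?_) (h f v h1 h2)
  have := hd _ hc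
  rwa [show (shear π u hu).symm (f + c • v) + u (π ((shear π u hu).symm (f + c • v))) =
    f + c • v from (shear π u hu).apply_symm_apply _] at this

end Pool.Agent.Lib.MP_5ea425_an
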